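import Pool.Agent.Y998.LP.Defs

/-!
# Project LP, jobs POS and DIST (author: helper350)
-/

set_option autoImplicit false

namespace Pool.Agent.Y350.LP.Pos

open Finset Equiv Pool.Agent.Y998.ST Pool.Agent.Y998.LP

section gen

variable {V : Type} [Fintype V] [DecidableEq V]

/-- `g` is reached with positive probability -/
def Q (J : V → V → ℝ) (g : Perm V) : Prop := ∃ n, 0 < (TT J ^ n) g 1

theorem TT_nonneg {J : V → V → ℝ} (hJ : ∀ x y, 0 ≤ J x y) (g h : Perm V) : 0 ≤ TT J g h :=
  Finset.sum_nonneg fun a _ => Finset.sum_nonneg fun b _ =>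
    mul_nonneg (by linarith [hJ a b]) (by split_ifs <;> norm_num)

theorem Q_mul {J : V → V → ℝ} (hJ : ∀ x y, 0 ≤ J x y) (x y : V) (h : 0 < J x y) (g : Perm V)
    (hg : Q J g) : Q J (swap x y * g) := by
  obtain ⟨n, hn⟩ := hg
  refine ⟨n + 1, ?_⟩
  rw [pow_succ', TT_mul]
  have h0 : ∀ a b, 0 ≤ J a b / 2 * (TT J ^ n) (swap a b * (swap x y * g)) 1 := fun a b =>
    mul_nonneg (by linarith [hJ a b]) (pow_nonneg' (TT_nonneg hJ) n _ _)
  have h1 : 0 < J x y / 2 * (TT J ^ n) (swap x y * (swap x y * g)) 1 := by
    rw [← mul_assoc, swap_mul_self, one_mul]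
    exact mul_pos (by linarith) hn
  refine Finset.sum_pos' (fun a _ => Finset.sum_nonneg fun b _ => h0 a b) ⟨x, mem_univ _, ?_⟩
  exact Finset.sum_pos' (fun b _ => h0 x b) ⟨y, mem_univ _, h1⟩

/-- the permutations which may be applied -/
def R (J : V → V → ℝ) (h : Perm V) : Prop := ∀ g, Q J g → Q J (h * g)

theorem R_mul {J : V → V → ℝ} {h k : Perm V} (hh : R J h) (hk : R J k) : R J (h * k) := by
  intro g hg
  rw [mul_assoc]
  exact hh _ (hk _ hg)

theorem R_one (J : V → V → ℝ) : R J (1 : Perm V) := by
  intro g hg
  rwa [one_mul]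

theorem R_trans {J : V → V → ℝ} {x y z : V} (h1 : R J (swap x y)) (h2 : R J (swap y z)) :
    R J (swap x z) := by
  by_cases hxy : x = y
  · rwa [hxy]
  by_cases hxz : x = z
  · rw [hxz, swap_self]; exact R_one J
  have e := Equiv.swap_mul_swap_mul_swap hxy hxz
  rw [swap_comm x z, ← e]
  exact R_mul (R_mul h2 h1) h2

end gen

variable {d L : ℕ} [NeZero L]

theorem R_step (x : Fin d → ZMod L) (i : Fin d) :
    R (nnRate d L) (swap x (Function.update x i (x i + 1))) := by
  intro g hg
  refine Q_mul nn_nonneg _ _ ?_ g hg
  unfold nnRate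
  rw [if_pos ⟨i, Or.inl rfl⟩]
  norm_num

theorem R_line (x : Fin d → ZMod L) (i : Fin d) (k : ℕ) :
    R (nnRate d L) (swap x (Function.update x i (x i + k))) := by
  induction k with
  | zero =>
    have h := R_one (nnRate d L)
    simpa [Equiv.Perm.one_def] using h
  | succ k ih =>
    refine R_trans ih ?_
    have h := R_step (Function.update x i (x i + k)) i
    rw [Function.update_self, Function.update_idem] at h
    have e : x i + ((k + 1 : ℕ) : ZMod L) = x i + k + 1 := by push_cast; ring
    rw [e]
    exact h

theorem R_coord (x : Fin d → ZMod L) (i : Fin d) (c : ZMod L) :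
    R (nnRate d L) (swap x (Function.update x i c)) := by
  have h := R_line x i (c - x i).val
  rw [ZMod.natCast_zmod_val, add_sub_cancel] at h
  exact h

theorem R_all (x y : Fin d → ZMod L) : R (nnRate d L) (swap x y) := by
  classical
  have h : ∀ s : Finset (Fin d), R (nnRate d L) (swap x (s.piecewise y x)) := by
    intro s
    induction s using Finset.induction_on with
    | empty =>
      have h := R_one (nnRate d L)
      simpa [Equiv.Perm.one_def] using h
    | insert i s _ ih =>
      refine R_trans ih ?_
      rw [Finset.piecewise_insert]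
      exact R_coord _ i (y i)
  have h1 := h univ
  rwa [Finset.piecewise_univ] at h1

/-- POS. -/
theorem t_POS : S_POS := by
  intro d L _ hL t ht g
  have hQ : Q (nnRate d L) g := by
    induction g using Equiv.Perm.swap_induction_on with
    | one => exact ⟨0, by simp⟩
    | swap_mul f x y hxy ih => exact R_all x y f ih
  obtain ⟨n, hn⟩ := hQ
  rw [law_eq]
  refine mul_pos (Real.exp_pos _) ?_
  have h := E_hasSum (TT (nnRate d L)) t g 1
  rw [← h.tsum_eq]
  exact h.summable.tsum_pos
    (fun n => mul_nonneg (by positivity) (pow_nonneg' (TT_nonneg nn_nonneg) n _ _))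
    n (mul_pos (by positivity) hn)

theorem vma_pos (u : ZMod L) (h : 0 < u.valMinAbs) : (u - 1).valMinAbs = u.valMinAbs - 1 := by
  rw [ZMod.valMinAbs_spec]
  obtain ⟨h1, h2⟩ := u.valMinAbs_mem_Ioc
  refine ⟨?_, by omega, by omega⟩
  push_cast
  rfl

theorem vma_neg (u : ZMod L) (h : u.valMinAbs < 0) : (u + 1).valMinAbs = u.valMinAbs + 1 := by
  rw [ZMod.valMinAbs_spec]
  obtain ⟨h1, h2⟩ := u.valMinAbs_mem_Ioc
  refine ⟨?_, by omega, by omega⟩
  push_cast
  rfl

omit [NeZero L] in
theorem tdist_upd (x y : Fin d → ZMod L) (i : Fin d) (c : ZMod L)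
    (h : (x i - c).valMinAbs.natAbs + 1 = (x i - y i).valMinAbs.natAbs) :
    tdist x (Function.update y i c) + 1 = tdist x y := by
  unfold tdist
  rw [← Finset.add_sum_erase _ _ (mem_univ i), ← Finset.add_sum_erase _ _ (mem_univ i),
    Function.update_self, ← h]
  have e : ∑ j ∈ univ.erase i, (x j - Function.update y i c j).valMinAbs.natAbs =
      ∑ j ∈ univ.erase i, (x j - y j).valMinAbs.natAbs :=
    Finset.sum_congr rfl fun j hj => by rw [Function.update_of_ne (Finset.ne_of_mem_erase hj)]
  rw [e]
  omega

/-- DIST. -/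
theorem t_DIST : S_DIST := by
  intro d L _ hL N δ hδ h1 hsub hstep x y
  have hnn : ∀ a b : Fin d → ZMod L, 0 ≤ N (swap a b) := by
    intro a b
    have h := hsub (swap a b) (swap a b)
    rw [swap_mul_self, h1] at h
    linarith
  have htr : ∀ a b c : Fin d → ZMod L, N (swap a c) ≤ N (swap a b) + 2 * N (swap b c) := by
    intro a b c
    by_cases hab : a = b
    · subst hab
      linarith [hnn a a, hnn a c]
    by_cases hac : a = c
    · subst hac
      rw [swap_self]
      have : N (Equiv.refl _) = 0 := h1
      rw [this]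
      linarith [hnn a b, hnn b a]
    have e := Equiv.swap_mul_swap_mul_swap hab hac
    rw [swap_comm a c, ← e]
    linarith [hsub (swap b c * swap a b) (swap b c), hsub (swap b c) (swap a b)]
  have main : ∀ n : ℕ, ∀ y, tdist x y = n → N (swap x y) ≤ 2 * (n : ℝ) * δ := by
    intro n
    induction n with
    | zero =>
      intro y hy
      have : x = y := by
        funext i
        have h := (Finset.sum_eq_zero_iff.1 hy) i (mem_univ i)
        rw [Int.natAbs_eq_zero, ZMod.valMinAbs_eq_zero] at h
        exact sub_eq_zero.1 h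
      subst this
      rw [swap_self]
      have : N (Equiv.refl _) = 0 := h1
      rw [this]
      simp
    | succ n ih =>
      intro y hy
      have hex : ∃ i, (x i - y i).valMinAbs ≠ 0 := by
        by_contra hcon
        push Not at hcon
        have : tdist x y = 0 := Finset.sum_eq_zero fun i _ => by rw [hcon i]; rfl
        omega
      obtain ⟨i, hi⟩ := hex
      have key : ∀ y', tdist x y' + 1 = tdist x y → N (swap y' y) ≤ δ →
          N (swap x y) ≤ 2 * ((n + 1 : ℕ) : ℝ) * δ := by
        intro y' h3 h4
        have h5 := ih y' (by omega)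
        have h6 := htr x y' y
        push_cast
        linarith
      rcases lt_or_gt_of_ne hi with h | h
      · refine key (Function.update y i (y i - 1)) (tdist_upd x y i _ ?_) ?_
        · have e : x i - (y i - 1) = (x i - y i) + 1 := by ring
          rw [e, vma_neg _ h]
          omega
        · have h7 := hstep (Function.update y i (y i - 1)) i
          rw [Function.update_self, Function.update_idem, sub_add_cancel,
            Function.update_eq_self] at h7
          exact h7
      · refine key (Function.update y i (y i + 1)) (tdist_upd x y i _ ?_) ?_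
        · have e : x i - (y i + 1) = (x i - y i) - 1 := by ring
          rw [e, vma_pos _ h]
          omega
        · rw [swap_comm]
          exact hstep y i
  exact main _ y rfl

end Pool.Agent.Y350.LP.Pos
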